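import Mathlib

set_option autoImplicit false

namespace Pool.Agent.Results.MP_73e407_co.Three

open Finset

variable {V : Type} [DecidableEq V]

/-- No three vertices of S lie on a common shortest path of H. -/
def GenPos (H : SimpleGraph V) (S : Finset V) : Prop :=
  ∀ (u v : V) (p : H.Walk u v), p.length = H.dist u v →
    ∀ x ∈ S, ∀ y ∈ S, ∀ z ∈ S, x ≠ y → x ≠ z → y ≠ z →
      ¬ (x ∈ p.support ∧ y ∈ p.support ∧ z ∈ p.support)

/-- A legal move from the occupied set S to the occupied set T. -/
def Move (H : SimpleGraph V) (S T : Finset V) : Prop :=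
  ∃ x ∈ S, ∃ y, y ∉ S ∧ H.Adj x y ∧ T = insert y (S.erase x) ∧ GenPos H T

/-- S is a mobile general position set. -/
def Mobile (H : SimpleGraph V) (S : Finset V) : Prop :=
  GenPos H S ∧ ∃ l : List (Finset V), List.IsChain (Move H) (S :: l) ∧ ∀ v, ∃ T ∈ S :: l, v ∈ T

/-- The mobile general position number. -/
noncomputable def mob (H : SimpleGraph V) : ℕ := sSup {k | ∃ S, Mobile H S ∧ S.card = k}

/-- The join of G with one new vertex none. -/
def cone (G : SimpleGraph V) : SimpleGraph (Option V) where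
  Adj a b := a ≠ b ∧ ∀ x y, a = some x → b = some y → G.Adj x y
  symm := ⟨fun _ _ h => ⟨h.1.symm, fun x y hx hy => (h.2 y x hy hx).symm⟩⟩
  loopless := ⟨fun _ h => h.1 rfl⟩

theorem cone_none (G : SimpleGraph V) (x : V) : (cone G).Adj none (some x) :=
  ⟨by simp, by simp⟩

theorem cone_some (G : SimpleGraph V) (x y : V) : (cone G).Adj (some x) (some y) ↔ G.Adj x y :=
  ⟨fun h => h.2 x y rfl rfl, fun h => ⟨by simpa using h.ne, by rintro _ _ ⟨⟩ ⟨⟩; exact h⟩⟩

theorem dist_le (G : SimpleGraph V) (u v : Option V) : (cone G).dist u v ≤ 2 := by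
  rcases u with _ | u <;> rcases v with _ | v
  · simp
  · exact (SimpleGraph.dist_le (cone_none G v).toWalk).trans (by simp)
  · exact (SimpleGraph.dist_le (cone_none G u).symm.toWalk).trans (by simp)
  · exact (SimpleGraph.dist_le (SimpleGraph.Walk.cons (cone_none G u).symm (cone_none G v).toWalk)).trans
      (by simp)

theorem genPos_of (G : SimpleGraph V) (S : Finset (Option V))
    (h : ∀ a ∈ S, ∀ b ∈ S, ∀ c ∈ S, (cone G).Adj a b → (cone G).Adj b c → a ≠ c → (cone G).Adj a c) :
    GenPos (cone G) S := by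
  intro u v p hp x hx y hy z hz hxy hxz hyz ⟨h1, h2, h3⟩
  have hd := dist_le G u v
  rw [← hp] at hd
  rcases p with _ | ⟨e1, _ | ⟨e2, _ | ⟨e3, p⟩⟩⟩
  · simp at h1 h2
    exact hxy (h1.trans h2.symm)
  · simp at h1 h2 h3
    grind
  · rename_i m
    simp at h1 h2 h3 hp
    have hu : u ∈ S := by grind
    have hv : v ∈ S := by grind
    have hm : m ∈ S := by grind
    have huv : u ≠ v := by grind
    have := SimpleGraph.dist_eq_one_iff_adj.2 (h u hu m hm v hv e1 e2 huv)
    omega
  · simp at hd

theorem chain_of (R : Finset V → Finset V → Prop) (S : Finset V) (X : Finset V)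
    (h : ∀ v ∈ X, ∃ T, v ∈ T ∧ Relation.ReflTransGen R S T ∧ Relation.ReflTransGen R T S) :
    ∃ l : List (Finset V), List.IsChain R (S :: l) ∧ ∀ v ∈ X, ∃ T ∈ S :: l, v ∈ T := by
  have ext : ∀ A B, Relation.ReflTransGen R A B → ∀ l, List.IsChain R (B :: l) →
      ∃ l', List.IsChain R (A :: l') ∧ ∀ T ∈ B :: l, T ∈ A :: l' := by
    intro A B hAB l hl
    induction hAB using Relation.ReflTransGen.head_induction_on with
    | refl => exact ⟨l, hl, fun _ h => h⟩
    | head h1 _ ih =>
      obtain ⟨l', h2, h3⟩ := ih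
      exact ⟨_ :: l', List.isChain_cons_cons.2 ⟨h1, h2⟩, fun T hT => List.mem_cons_of_mem _ (h3 T hT)⟩
  induction X using Finset.induction_on with
  | empty => exact ⟨[], List.isChain_singleton _, by simp⟩
  | insert v X _ ih =>
    obtain ⟨l, h1, h2⟩ := ih (fun w hw => h w (mem_insert_of_mem hw))
    obtain ⟨T, hT, h3, h4⟩ := h v (mem_insert_self _ _)
    obtain ⟨l', h5, h6⟩ := ext _ _ h4 l h1
    obtain ⟨l'', h7, h8⟩ := ext _ _ h3 l' h5
    refine ⟨l'', h7, fun w hw => ?_⟩
    rcases mem_insert.1 hw with rfl | hw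
    · exact ⟨T, h8 T List.mem_cons_self, hT⟩
    · obtain ⟨U, hU, hw⟩ := h2 w hw
      exact ⟨U, h8 U (h6 U hU), hw⟩

theorem mv (H : SimpleGraph V) (x y b c : V) (hxy : H.Adj x y) (hxb : x ≠ b) (hxc : x ≠ c)
    (hyb : y ≠ b) (hyc : y ≠ c) (hg : GenPos H {y, b, c}) : Move H {x, b, c} {y, b, c} := by
  refine ⟨x, by simp, y, by simp [hyb, hyc, hxy.ne'], hxy, ?_, hg⟩
  rw [erase_insert (by simp [hxb, hxc])]

theorem result (V : Type) [Fintype V] [DecidableEq V] (G : SimpleGraph V) (hG : 3 ≤ G.cliqueNum) :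
    3 ≤ mob (cone G) := by
  obtain ⟨K, hK⟩ := G.exists_isNClique_cliqueNum
  obtain ⟨K', hK', hc⟩ := exists_subset_card_eq (hG.trans hK.card_eq.ge)
  obtain ⟨a, b, c, hab, hac, hbc, rfl⟩ := card_eq_three.1 hc
  have eab : G.Adj a b := hK.isClique (hK' (by simp)) (hK' (by simp)) hab
  have eac : G.Adj a c := hK.isClique (hK' (by simp)) (hK' (by simp)) hac
  have ebc : G.Adj b c := hK.isClique (hK' (by simp)) (hK' (by simp)) hbc
  have g0 : ∀ x y, G.Adj x y → GenPos (cone G) {none, some x, some y} := by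
    intro x y hxy
    apply genPos_of
    have e1 := cone_none G x
    have e2 := cone_none G y
    have e3 := (cone_some G x y).2 hxy
    have e4 := e1.symm
    have e5 := e2.symm
    have e6 := e3.symm
    simp only [mem_insert, mem_singleton]
    rintro _ (rfl | rfl | rfl) _ (rfl | rfl | rfl) _ (rfl | rfl | rfl) h1 h2 h3 <;>
      first | assumption | exact absurd rfl h3
  have g1 : ∀ x y z, G.Adj x y → (G.Adj z x ↔ G.Adj z y) → GenPos (cone G) {some z, some x, some y} := by
    intro x y z hxy hz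
    apply genPos_of
    have e1 := G.adj_comm z x
    have e2 := G.adj_comm z y
    have e3 := hxy.symm
    simp only [mem_insert, mem_singleton]
    rintro _ (rfl | rfl | rfl) _ (rfl | rfl | rfl) _ (rfl | rfl | rfl) h1 h2 h3 <;>
      simp only [cone_some] at h1 h2 ⊢ <;> first | exact absurd rfl h3 | tauto
  have m1 : ∀ x y z, G.Adj x y → G.Adj x z → G.Adj y z →
      Move (cone G) {none, some x, some y} {none, some x, some z} := by
    intro x y z h1 h2 h3
    have := mv (cone G) (some y) (some z) none (some x) ((cone_some G _ _).2 h3) (by simp)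
      (by simpa using h1.ne') (by simp) (by simpa using h2.ne')
      (by convert g0 x z h2 using 1; ext; simp; tauto)
    convert this using 1 <;> ext <;> simp <;> tauto
  have m2 : ∀ x y z, G.Adj x y → (G.Adj z x ↔ G.Adj z y) → z ≠ x → z ≠ y →
      Move (cone G) {none, some x, some y} {some z, some x, some y} ∧
      Move (cone G) {some z, some x, some y} {none, some x, some y} := fun x y z h1 h2 h3 h4 =>
    ⟨mv _ _ _ _ _ (cone_none G z) (by simp) (by simp) (by simpa using h3) (by simpa using h4)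
      (g1 x y z h1 h2),
     mv _ _ _ _ _ (cone_none G z).symm (by simpa using h3) (by simpa using h4) (by simp) (by simp)
      (g0 x y h1)⟩
  have sw : ({none, some b, some a} : Finset (Option V)) = {none, some a, some b} := by
    ext; simp; tauto
  have hmob : Mobile (cone G) {none, some a, some b} := by
    refine ⟨g0 a b eab, ?_⟩
    obtain ⟨l, h1, h2⟩ := chain_of (Move (cone G)) {none, some a, some b} univ (by
      rintro (_ | z) -
      · exact ⟨_, by simp, .refl, .refl⟩
      by_cases hza : z = a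
      · exact ⟨_, by simp [hza], .refl, .refl⟩
      by_cases hzb : z = b
      · exact ⟨_, by simp [hzb], .refl, .refl⟩
      by_cases hzc : z = c
      · exact ⟨{none, some a, some c}, by simp [hzc], .single (m1 a b c eab eac ebc),
          .single (m1 a c b eac eab ebc.symm)⟩
      by_cases h1 : G.Adj z a ↔ G.Adj z b
      · exact ⟨_, by simp, .single (m2 a b z eab h1 hza hzb).1, .single (m2 a b z eab h1 hza hzb).2⟩
      by_cases h2 : G.Adj z a ↔ G.Adj z c
      · exact ⟨{some z, some a, some c}, by simp,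
          .tail (.single (m1 a b c eab eac ebc)) (m2 a c z eac h2 hza hzc).1,
          .tail (.single (m2 a c z eac h2 hza hzc).2) (m1 a c b eac eab ebc.symm)⟩
      · have h3 : G.Adj z b ↔ G.Adj z c := by tauto
        exact ⟨{some z, some b, some c}, by simp,
          .tail (.single (sw ▸ m1 b a c eab.symm ebc eac)) (m2 b c z ebc h3 hzb hzc).1,
          .tail (.single (m2 b c z ebc h3 hzb hzc).2) (sw ▸ m1 b c a ebc eab.symm eac.symm)⟩)
    exact ⟨l, h1, fun v => h2 v (mem_univ v)⟩
  refine le_csSup ⟨Fintype.card (Option V), ?_⟩ ⟨_, hmob, ?_⟩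
  · rintro _ ⟨S, -, rfl⟩
    exact card_le_univ S
  · rw [card_eq_three]
    exact ⟨_, _, _, by simp, by simp, by simpa using hab, rfl⟩

end Pool.Agent.Results.MP_73e407_co.Three
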